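import Pool.Agent.X156.PM.Isolated

/-!
# The polytope move graph under a volume window with a greatest element is disconnected

If the interval `I` has a greatest element `b` then every simplex of volume `b` is an isolated
vertex of `Γ_I(d)`: an insertion strictly increases the volume, and no vertex of a simplex can be
deleted. There are two different simplices of volume `b`.
-/

set_option autoImplicit false

open MeasureTheory

namespace Pool.Agent.Results.MP_208a82_co.GreatestElement

open Pool.Agent.X156.PM

/-- **Negative answer to Q1.** For every `d ≥ 2` and every non-trivial interval `I ⊆ (0, ∞)` that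
has a greatest element `b`, the graph `Γ_I(d)` is not connected; every polytope with exactly `d + 1`
vertices and with volume `b` is an isolated vertex of it. In particular `Γ_[1,2](d)` is not
connected. -/
theorem result :
    (∀ d : ℕ, 2 ≤ d → ∀ I : Set ℝ, I ⊆ Set.Ioi 0 → I.OrdConnected → I.Nontrivial →
      ∀ b : ℝ, IsGreatest I b → ¬ (Gam d I).Connected ∧
        ∀ P : {P : Set (E d) // IsPoly P ∧ (volume P).toReal ∈ I},
          (P.1.extremePoints ℝ).ncard = d + 1 → (volume P.1).toReal = b →
          ∀ Q, ¬ (Gam d I).Adj P Q) ∧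
    ∀ d : ℕ, 2 ≤ d → ¬ (Gam d (Set.Icc 1 2)).Connected := by
  have key : ∀ d : ℕ, 2 ≤ d → ∀ I : Set ℝ, I ⊆ Set.Ioi 0 → I.OrdConnected → I.Nontrivial →
      ∀ b : ℝ, IsGreatest I b → ¬ (Gam d I).Connected ∧
        ∀ P : {P : Set (E d) // IsPoly P ∧ (volume P).toReal ∈ I},
          (P.1.extremePoints ℝ).ncard = d + 1 → (volume P.1).toReal = b →
          ∀ Q, ¬ (Gam d I).Adj P Q := by
    intro d hd I hI _ _ b hb
    refine ⟨fun h => ?_, fun P hP hv Q => isolated hb P hP.le hv Q⟩
    exact not_connected_of_isGreatest (by omega) hb (hI hb.1) h.preconnected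
  refine ⟨key, fun d hd => ?_⟩
  refine (key d hd (Set.Icc 1 2) (fun x hx => ?_) Set.ordConnected_Icc ?_ 2 ?_).1
  · exact lt_of_lt_of_le one_pos hx.1
  · exact ⟨1, by norm_num, 2, by norm_num, by norm_num⟩
  · exact isGreatest_Icc (by norm_num)

end Pool.Agent.Results.MP_208a82_co.GreatestElement
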